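import Mathlib

/-! Free groups are residually `p` (copy of a file of helper95)

Proof. Let `l` be the reduced word of a nontrivial element, of length `m`.  For a letter `y` with
sign let `N y` be the `(m+1) x (m+1)`-matrix over `ZMod p` with entry `1` at `(i, i+1)` for the
places `i` of `l` with letter `y`.  The letter `x` is sent to `(1 + N (x,+)) (1 + N (x,-))⁻¹`.  The
first row of the image of the first `t` letters of `l` is zero behind place `t` and `1` at
place `t` (induction, `l` is reduced).  The image consists of unitriangular matrices. -/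

namespace Pool.Agent.H.MP_48f3d1_lc

open Matrix

universe u

/-- unitriangular matrices -/
def P14_Ut {n : ℕ} {R : Type} [CommRing R] (M : Matrix (Fin n) (Fin n) R) : Prop :=
  (∀ i j, j < i → M i j = 0) ∧ ∀ i, M i i = 1

theorem P14_Ut_one {n : ℕ} {R : Type} [CommRing R] : P14_Ut (1 : Matrix (Fin n) (Fin n) R) :=
  ⟨fun _ _ h => Matrix.one_apply_ne h.ne', fun _ => Matrix.one_apply_eq _⟩

theorem P14_Ut_mul {n : ℕ} {R : Type} [CommRing R] {A B : Matrix (Fin n) (Fin n) R}
    (hA : P14_Ut A) (hB : P14_Ut B) : P14_Ut (A * B) := by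
  constructor
  · intro i j h
    rw [Matrix.mul_apply]
    refine Finset.sum_eq_zero fun k _ => ?_
    rcases lt_or_ge k i with hk | hk
    · rw [hA.1 i k hk, zero_mul]
    · rw [hB.1 k j (h.trans_le hk), mul_zero]
  · intro i
    rw [Matrix.mul_apply, Finset.sum_eq_single i]
    · rw [hA.2, hB.2, one_mul]
    · intro k _ hk
      rcases lt_or_gt_of_ne hk with h | h
      · rw [hA.1 i k h, zero_mul]
      · rw [hB.1 k i h, mul_zero]
    · intro h
      exact absurd (Finset.mem_univ _) h

theorem P14_Ut_pow {n : ℕ} {R : Type} [CommRing R] {A : Matrix (Fin n) (Fin n) R}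
    (hA : P14_Ut A) (k : ℕ) : P14_Ut (A ^ k) := by
  induction k with
  | zero => rw [pow_zero]; exact P14_Ut_one
  | succ k ih => rw [pow_succ]; exact P14_Ut_mul ih hA

theorem P14_Ut_pow_eq_one {m p : ℕ} [Fact p.Prime]
    {A : Matrix (Fin (m + 1)) (Fin (m + 1)) (ZMod p)} (hA : P14_Ut A) :
    A ^ p ^ (m + 1) = 1 := by
  have hchar : A.charpoly = (Polynomial.X - 1) ^ (m + 1) := by
    rw [Matrix.charpoly_of_isUpperTriangular A (fun i j h => hA.1 i j h)]
    simp only [hA.2, map_one, Finset.prod_const, Finset.card_univ, Fintype.card_fin]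
  have h0 : (A - 1) ^ (m + 1) = 0 := by
    have h1 := Matrix.aeval_self_charpoly A
    rw [hchar] at h1
    simpa using h1
  have hlt : m + 1 ≤ p ^ (m + 1) := (Nat.lt_pow_self (Fact.out : p.Prime).one_lt).le
  have h2 : (A - 1) ^ p ^ (m + 1) = 0 := pow_eq_zero_of_le hlt h0
  have h3 : A = (A - 1) + 1 := by abel
  rw [h3, add_pow_char_pow_of_commute _ _ (Commute.one_right _), h2, one_pow, zero_add]

/-- the group of unitriangular matrices -/
def P14_T (m p : ℕ) [Fact p.Prime] :
    Subgroup (Matrix (Fin (m + 1)) (Fin (m + 1)) (ZMod p))ˣ where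
  carrier := {u | P14_Ut u.val ∧ P14_Ut (u⁻¹).val}
  one_mem' := ⟨P14_Ut_one, by rw [inv_one]; exact P14_Ut_one⟩
  mul_mem' := fun ha hb => ⟨P14_Ut_mul ha.1 hb.1, by
    rw [_root_.mul_inv_rev]; exact P14_Ut_mul hb.2 ha.2⟩
  inv_mem' := fun ha => ⟨ha.2, by rw [inv_inv]; exact ha.1⟩

theorem P14_exists {m p : ℕ} [Fact p.Prime]
    (A : Matrix (Fin (m + 1)) (Fin (m + 1)) (ZMod p)) (hA : P14_Ut A) :
    ∃ u : P14_T m p, u.1.val = A := by
  have hp : p ^ (m + 1) ≠ 0 := pow_ne_zero _ (Fact.out : p.Prime).ne_zero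
  obtain ⟨q, hq⟩ : ∃ q, p ^ (m + 1) = q + 1 := Nat.exists_eq_succ_of_ne_zero hp
  have h1 := P14_Ut_pow_eq_one hA
  rw [hq] at h1
  exact ⟨⟨⟨A, A ^ q, by rw [← pow_succ', h1], by rw [← pow_succ, h1]⟩,
    ⟨hA, P14_Ut_pow hA q⟩⟩, rfl⟩

theorem P14_pgroup (m p : ℕ) [Fact p.Prime] : IsPGroup p (P14_T m p) := by
  intro g
  refine ⟨m + 1, ?_⟩
  apply Subtype.ext
  apply Units.ext
  exact P14_Ut_pow_eq_one g.2.1

section

variable {α : Type u} (p : ℕ) [Fact p.Prime] (l : List (α × Bool))

open Classical in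
/-- the matrix of the places with letter `y` -/
noncomputable def P14_N (y : α × Bool) :
    Matrix (Fin (l.length + 1)) (Fin (l.length + 1)) (ZMod p) :=
  Matrix.of fun i j => if j.1 = i.1 + 1 ∧ l[i.1]? = some y then 1 else 0

theorem P14_N_ut (y : α × Bool) : P14_Ut (1 + P14_N p l y) := by
  classical
  constructor
  · intro i j h
    have h1 : P14_N p l y i j = 0 := by
      unfold P14_N
      rw [Matrix.of_apply, if_neg]
      rintro ⟨h2, -⟩
      have := Fin.lt_def.1 h
      omega
    rw [Matrix.add_apply, Matrix.one_apply_ne h.ne', h1, add_zero]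
  · intro i
    have h1 : P14_N p l y i i = 0 := by
      unfold P14_N
      rw [Matrix.of_apply, if_neg]
      rintro ⟨h2, -⟩
      omega
    rw [Matrix.add_apply, Matrix.one_apply_eq, h1, add_zero]

theorem P14_N_zero (y : α × Bool) (r : Fin (l.length + 1) → ZMod p) (j : Fin (l.length + 1))
    (hj : j.1 = 0) : (r ᵥ* P14_N p l y) j = 0 := by
  classical
  unfold P14_N
  simp only [Matrix.vecMul, dotProduct, Matrix.of_apply]
  refine Finset.sum_eq_zero fun i _ => ?_
  rw [if_neg, mul_zero]
  rintro ⟨h2, -⟩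
  omega

open Classical in
theorem P14_N_succ (y : α × Bool) (r : Fin (l.length + 1) → ZMod p) (j i : Fin (l.length + 1))
    (hj : j.1 = i.1 + 1) : (r ᵥ* P14_N p l y) j = if l[i.1]? = some y then r i else 0 := by
  unfold P14_N
  simp only [Matrix.vecMul, dotProduct, Matrix.of_apply]
  rw [Finset.sum_eq_single i]
  · by_cases h : l[i.1]? = some y
    · rw [if_pos ⟨hj, h⟩, if_pos h, mul_one]
    · rw [if_neg (fun h2 => h h2.2), if_neg h, mul_zero]
  · intro k _ hk
    rw [if_neg, mul_zero]
    rintro ⟨h2, -⟩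
    apply hk
    apply Fin.ext
    omega
  · intro h
    exact absurd (Finset.mem_univ _) h

/-- zero behind place `t`, one at place `t` -/
def P14_good (t : ℕ) (r : Fin (l.length + 1) → ZMod p) : Prop :=
  (∀ j, t < j.1 → r j = 0) ∧ ∀ j, j.1 = t → r j = 1

theorem P14_fwd (y : α × Bool) (t : ℕ) (r : Fin (l.length + 1) → ZMod p)
    (h : P14_good p l t r) (hy : l[t]? = some y) :
    P14_good p l (t + 1) (r ᵥ* (1 + P14_N p l y)) := by
  classical
  rw [Matrix.vecMul_add, Matrix.vecMul_one]
  constructor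
  · intro j hj
    obtain ⟨i, hi⟩ : ∃ i : Fin (l.length + 1), j.1 = i.1 + 1 :=
      ⟨⟨j.1 - 1, by have := j.2; omega⟩, by simp only; omega⟩
    rw [Pi.add_apply, P14_N_succ p l y r j i hi, h.1 j (by omega), h.1 i (by omega), ite_self,
      add_zero]
  · intro j hj
    obtain ⟨i, hi⟩ : ∃ i : Fin (l.length + 1), j.1 = i.1 + 1 :=
      ⟨⟨j.1 - 1, by have := j.2; omega⟩, by simp only; omega⟩
    have hit : i.1 = t := by omega
    rw [Pi.add_apply, P14_N_succ p l y r j i hi, h.1 j (by omega), h.2 i hit, hit, if_pos hy,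
      zero_add]

theorem P14_bwd (y : α × Bool) (t : ℕ) (s : Fin (l.length + 1) → ZMod p)
    (h : P14_good p l t (s ᵥ* (1 + P14_N p l y))) (h1 : ∀ k, k + 1 = t → l[k]? ≠ some y)
    (h2 : l[t]? ≠ some y) : P14_good p l t s := by
  classical
  rw [Matrix.vecMul_add, Matrix.vecMul_one] at h
  constructor
  · have key : ∀ d : ℕ, ∀ j : Fin (l.length + 1), j.1 = t + 1 + d → s j = 0 := by
      intro d
      induction d with
      | zero =>
        intro j hj
        obtain ⟨i, hi⟩ : ∃ i : Fin (l.length + 1), j.1 = i.1 + 1 :=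
          ⟨⟨j.1 - 1, by have := j.2; omega⟩, by simp only; omega⟩
        have hit : i.1 = t := by omega
        have h3 := h.1 j (by omega)
        rw [Pi.add_apply, P14_N_succ p l y s j i hi, hit, if_neg h2, add_zero] at h3
        exact h3
      | succ d ih =>
        intro j hj
        obtain ⟨i, hi⟩ : ∃ i : Fin (l.length + 1), j.1 = i.1 + 1 :=
          ⟨⟨j.1 - 1, by have := j.2; omega⟩, by simp only; omega⟩
        have h3 := h.1 j (by omega)
        rw [Pi.add_apply, P14_N_succ p l y s j i hi, ih i (by omega), ite_self, add_zero] at h3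
        exact h3
    intro j hj
    exact key (j.1 - (t + 1)) j (by omega)
  · intro j hj
    have h3 := h.2 j hj
    rw [Pi.add_apply] at h3
    by_cases ht : t = 0
    · rw [P14_N_zero p l y s j (by omega), add_zero] at h3
      exact h3
    · obtain ⟨i, hi⟩ : ∃ i : Fin (l.length + 1), j.1 = i.1 + 1 :=
        ⟨⟨j.1 - 1, by have := j.2; omega⟩, by simp only; omega⟩
      rw [P14_N_succ p l y s j i hi, if_neg (h1 i.1 (by omega)), add_zero] at h3
      exact h3

/-- the unit `1 + N y` -/
noncomputable def P14_u (y : α × Bool) : P14_T l.length p :=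
  (P14_exists (1 + P14_N p l y) (P14_N_ut p l y)).choose

theorem P14_u_val (y : α × Bool) : (P14_u p l y).1.val = 1 + P14_N p l y :=
  (P14_exists (1 + P14_N p l y) (P14_N_ut p l y)).choose_spec

/-- the image of a generator -/
noncomputable def P14_f (a : α) : P14_T l.length p :=
  P14_u p l (a, true) * (P14_u p l (a, false))⁻¹

theorem P14_f_val (y : α × Bool) :
    cond y.2 (P14_f p l y.1) (P14_f p l y.1)⁻¹ = P14_u p l y * (P14_u p l (y.1, !y.2))⁻¹ := by
  obtain ⟨a, b⟩ := y
  cases b
  · simp only [cond_false, P14_f, _root_.mul_inv_rev, inv_inv, Bool.not_false]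
  · simp only [cond_true, P14_f, Bool.not_true]

theorem P14_step (hl : FreeGroup.IsReduced l) (t : ℕ) (y : α × Bool) (hy : l[t]? = some y)
    (r : Fin (l.length + 1) → ZMod p) (h : P14_good p l t r) :
    P14_good p l (t + 1)
      (r ᵥ* (cond y.2 (P14_f p l y.1) (P14_f p l y.1)⁻¹ : P14_T l.length p).1.val) := by
  rw [P14_f_val]
  have h1 := P14_fwd p l y t r h hy
  refine P14_bwd p l (y.1, !y.2) (t + 1) _ ?_ ?_ ?_
  · rw [← P14_u_val p l (y.1, !y.2), Matrix.vecMul_vecMul]
    have h2 : (P14_u p l y * (P14_u p l (y.1, !y.2))⁻¹ : P14_T l.length p).1.val *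
        (P14_u p l (y.1, !y.2)).1.val = 1 + P14_N p l y := by
      rw [← P14_u_val p l y]
      have h3 : (P14_u p l y * (P14_u p l (y.1, !y.2))⁻¹) * P14_u p l (y.1, !y.2) =
          P14_u p l y := by group
      exact congrArg (fun g : P14_T l.length p => g.1.val) h3
    rw [h2]
    exact h1
  · intro k hk
    obtain rfl : k = t := by omega
    rw [hy]
    intro h2
    have h3 := congrArg Prod.snd (Option.some.inj h2)
    exact Bool.not_ne_self y.2 h3.symm
  · intro h2
    obtain ⟨hlt, h3⟩ := List.getElem?_eq_some_iff.1 h2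
    have hlt0 : t < l.length := by omega
    have h4 : l[t] = y := by
      have := (List.getElem?_eq_getElem hlt0).symm.trans hy
      exact Option.some.inj this
    have h5 := (List.isChain_iff_getElem.1 hl) t hlt
    rw [h4, h3] at h5
    exact Bool.not_ne_self y.2 (h5 rfl).symm

theorem P14_main (hl : FreeGroup.IsReduced l) (t : ℕ) (ht : t ≤ l.length) :
    P14_good p l t ((Pi.single 0 1 : Fin (l.length + 1) → ZMod p) ᵥ*
      (((l.take t).map fun x => cond x.2 (P14_f p l x.1) (P14_f p l x.1)⁻¹).prod :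
        P14_T l.length p).1.val) := by
  induction t with
  | zero =>
    rw [List.take_zero, List.map_nil, List.prod_nil]
    have h1 : ((1 : P14_T l.length p).1.val :
      Matrix (Fin (l.length + 1)) (Fin (l.length + 1)) (ZMod p)) = 1 := rfl
    rw [h1, Matrix.vecMul_one]
    constructor
    · intro j hj
      rw [Pi.single_eq_of_ne]
      intro h2
      rw [h2] at hj
      exact absurd hj (by simp)
    · intro j hj
      have h2 : j = 0 := Fin.ext hj
      rw [h2, Pi.single_eq_same]
  | succ t ih =>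
    have hlt : t < l.length := ht
    have hy : l[t]? = some l[t] := List.getElem?_eq_getElem hlt
    have h1 := P14_step p l hl t l[t] hy _ (ih hlt.le)
    rw [Matrix.vecMul_vecMul] at h1
    rw [List.take_add_one, hy, List.map_append, List.prod_append]
    simpa using h1

end

theorem P14_free (p : ℕ) [Fact p.Prime] {α : Type u} (g : FreeGroup α) (hg : g ≠ 1) :
    ∃ (m : ℕ) (φ : FreeGroup α →* P14_T m p), φ g ≠ 1 := by
  classical
  refine ⟨g.toWord.length, FreeGroup.lift (P14_f p g.toWord), fun h => ?_⟩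
  have h1 : FreeGroup.lift (P14_f p g.toWord) (FreeGroup.mk g.toWord) = 1 := by
    rw [FreeGroup.mk_toWord]
    exact h
  rw [FreeGroup.lift_mk] at h1
  have h2 := P14_main p g.toWord FreeGroup.isReduced_toWord g.toWord.length le_rfl
  rw [List.take_length, h1] at h2
  have h3 : ((1 : P14_T g.toWord.length p).1.val :
    Matrix (Fin (g.toWord.length + 1)) (Fin (g.toWord.length + 1)) (ZMod p)) = 1 := rfl
  rw [h3, Matrix.vecMul_one] at h2
  have h4 := h2.2 (Fin.last _) rfl
  have h5 : Fin.last g.toWord.length ≠ 0 := by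
    intro h6
    have h7 : g.toWord.length = 0 := congrArg Fin.val h6
    exact hg (FreeGroup.toWord_eq_nil_iff.1 (List.length_eq_zero_iff.1 h7))
  rw [Pi.single_eq_of_ne h5] at h4
  exact zero_ne_one h4

end Pool.Agent.H.MP_48f3d1_lc
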