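import Pool.Agent.H.MP_48f3d1_lc.Defs
import Pool.Agent.H.MP_48f3d1_lc.ResP

/-! Integral and rational spans, and the commutator argument. -/

namespace Pool.Agent.H.MP_48f3d1_lc

open Multiplicative

open scoped commutatorElement

section Lin

variable {ι : Type} [Fintype ι]

/-- integer vectors as rational vectors -/
def cst (ι : Type) : (ι → ℤ) →ₗ[ℤ] (ι → ℚ) where
  toFun v := fun i => (v i : ℚ)
  map_add' := by intro v w; ext i; simp
  map_smul' := by intro a v; ext i; simp

omit [Fintype ι] in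
theorem clear_one (s : Set (ι → ℤ)) (v : ι → ℚ)
    (hv : v ∈ Submodule.span ℚ (cst ι '' s)) :
    ∃ k : ℕ, k ≠ 0 ∧ ∃ y ∈ Submodule.span ℤ s, (k : ℚ) • v = cst ι y := by
  induction hv using Submodule.span_induction with
  | mem x hx =>
    obtain ⟨y, hy, rfl⟩ := hx
    exact ⟨1, one_ne_zero, y, Submodule.subset_span hy, by simp⟩
  | zero => exact ⟨1, one_ne_zero, 0, Submodule.zero_mem _, by simp⟩
  | add x y _ _ hx hy =>
    obtain ⟨k, hk, a, ha, h1⟩ := hx
    obtain ⟨l, hl, b, hb, h2⟩ := hy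
    refine ⟨k * l, mul_ne_zero hk hl, (l : ℤ) • a + (k : ℤ) • b,
      Submodule.add_mem _ (Submodule.smul_mem _ _ ha) (Submodule.smul_mem _ _ hb), ?_⟩
    rw [map_add, map_smul, map_smul, ← h1, ← h2]
    ext i
    simp
    ring
  | smul q x _ hx =>
    obtain ⟨k, hk, a, ha, h1⟩ := hx
    refine ⟨k * q.den, mul_ne_zero hk q.den_ne_zero, q.num • a, Submodule.smul_mem _ _ ha, ?_⟩
    rw [map_smul, ← h1]
    ext i
    have h2 : (q.den : ℚ) * q = q.num := by
      rw [mul_comm]
      exact Rat.mul_den_eq_num q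
    simp only [Nat.cast_mul, Pi.smul_apply, smul_eq_mul, zsmul_eq_mul]
    rw [← h2]
    ring

theorem clear (s : Set (ι → ℤ)) : ∃ m : ℕ, m ≠ 0 ∧ ∀ x : ι → ℤ,
    cst ι x ∈ Submodule.span ℚ (cst ι '' s) → (m : ℤ) • x ∈ Submodule.span ℤ s := by
  classical
  set M : Submodule ℤ (ι → ℤ) :=
    ((Submodule.span ℚ (cst ι '' s)).restrictScalars ℤ).comap (cst ι) with hM
  obtain ⟨t, ht⟩ : M.FG := IsNoetherian.noetherian M
  have h1 : ∀ x ∈ t, ∃ k : ℕ, k ≠ 0 ∧ (k : ℤ) • x ∈ Submodule.span ℤ s := by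
    intro x hx
    have hx' : x ∈ M := ht ▸ Submodule.subset_span hx
    obtain ⟨k, hk, y, hy, h2⟩ := clear_one s (cst ι x) hx'
    refine ⟨k, hk, ?_⟩
    have h3 : (k : ℤ) • x = y := by
      ext i
      have h4 := congrFun h2 i
      simp only [cst, LinearMap.coe_mk, AddHom.coe_mk, Pi.smul_apply, smul_eq_mul] at h4
      have h5 : ((k * x i : ℤ) : ℚ) = (y i : ℚ) := by
        push_cast
        exact h4
      simpa using Int.cast_injective (α := ℚ) h5
    rw [h3]
    exact hy
  choose! k hk hk' using h1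
  refine ⟨∏ x ∈ t, k x, Finset.prod_ne_zero_iff.2 hk, ?_⟩
  intro x hx
  have hx' : x ∈ M := hx
  rw [← ht] at hx'
  induction hx' using Submodule.span_induction with
  | mem x hx2 =>
    have hx2' : x ∈ t := hx2
    rw [← Finset.prod_erase_mul t k hx2', Nat.cast_mul, mul_smul]
    exact Submodule.smul_mem _ _ (hk' x hx2')
  | zero => simp
  | add x y hx1 hy1 hx2 hy2 =>
    rw [ht] at hx1 hy1
    rw [smul_add]
    exact Submodule.add_mem _ (hx2 hx1) (hy2 hy1)
  | smul a x hx1 hx2 =>
    rw [ht] at hx1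
    rw [smul_comm]
    exact Submodule.smul_mem _ _ (hx2 hx1)

end Lin

section Ab

variable {ι : Type} [Fintype ι]

open Classical in
/-- exponent sums -/
noncomputable def ab (ι : Type) : FreeGroup ι →* Multiplicative (ι → ℤ) :=
  FreeGroup.lift fun i => ofAdd (Pi.single i 1)

theorem ab_factor {Z : Type*} [CommGroup Z] (t : FreeGroup ι →* Z) :
    ∃ T : (ι → ℤ) →+ Additive Z, ∀ w, Additive.ofMul (t w) = T (toAdd (ab ι w)) := by
  classical
  refine ⟨{ toFun := fun v => ∑ i, v i • Additive.ofMul (t (FreeGroup.of i))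
            map_zero' := by simp
            map_add' := by
              intro v w
              simp only [Pi.add_apply, add_smul, Finset.sum_add_distrib] }, ?_⟩
  intro w
  induction w using FreeGroup.induction_on with
  | C1 => simp
  | of i =>
    simp only [ab, FreeGroup.lift_apply_of, toAdd_ofAdd, AddMonoidHom.coe_mk, ZeroHom.coe_mk]
    rw [Finset.sum_eq_single i]
    · simp
    · intro j _ hj
      rw [Pi.single_eq_of_ne hj, zero_smul]
    · intro h
      exact absurd (Finset.mem_univ i) h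
  | inv_of i h =>
    rw [map_inv t, ofMul_inv, map_inv (ab ι), toAdd_inv, map_neg, h]
  | mul x y hx hy =>
    rw [map_mul t, ofMul_mul, map_mul (ab ι), toAdd_mul, map_add, hx, hy]

end Ab

section Grp

theorem nil {p : ℕ} [Fact p.Prime] {P : Type*} [Group P] [Finite P] (hP : IsPGroup p P)
    (N : Subgroup P) (m : ℕ) (hm : Nat.Coprime p m)
    (h : ∀ x ∈ N, x ^ m ∈ ⁅N, (⊤ : Subgroup P)⁆) : N = ⊥ := by
  have hk : ∀ k, N ≤ Subgroup.lowerCentralSeries (⊤ : Subgroup P) k := by
    intro k
    induction k with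
    | zero => simp
    | succ k ih =>
      intro x hx
      have h1 : x ^ m ∈ Subgroup.lowerCentralSeries (⊤ : Subgroup P) (k + 1) := by
        rw [Subgroup.lowerCentralSeries_succ]
        exact Subgroup.commutator_mono ih le_rfl (h x hx)
      obtain ⟨j, hj⟩ := hP x
      have h2 : Nat.Coprime (p ^ j) m := Nat.Coprime.pow_left j hm
      have h3 := Nat.isCoprime_iff_coprime.2 h2
      obtain ⟨a, b, hab⟩ := h3
      have h4 : x = (x ^ m) ^ b := by
        calc x = x ^ (a * ((p ^ j : ℕ) : ℤ) + b * (m : ℤ)) := by rw [hab, zpow_one]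
          _ = (x ^ m) ^ b := by
            rw [zpow_add, mul_comm a, zpow_mul, zpow_natCast, hj, one_zpow, one_mul,
              mul_comm b, zpow_mul, zpow_natCast]
      rw [h4]
      exact Subgroup.zpow_mem _ h1 b
  have : Group.IsNilpotent P := hP.isNilpotent
  obtain ⟨n, hn⟩ := Subgroup.nilpotent_iff_lowerCentralSeries.1 (inferInstance : Group.IsNilpotent P)
  rw [eq_bot_iff, ← hn]
  exact hk n

open scoped IsMulCommutative in
/-- The commutator argument. `f` has a section on its image, `φ` is onto, both kill `R`, and the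
exponent vector of every element of the kernel of `f` is, up to the factor `m`, in the span of
the exponent vectors of `R`. -/
theorem pow_mem {ι : Type} [Fintype ι] {G P : Type*} [Group G] [Group P]
    (f : FreeGroup ι →* G) (s : f.range →* FreeGroup ι) (hs : ∀ y, f (s y) = y)
    (φ : FreeGroup ι →* P) (hφ : Function.Surjective φ) (R : Set (FreeGroup ι))
    (hfR : ∀ r ∈ R, f r = 1) (hφR : ∀ r ∈ R, φ r = 1) (m : ℕ)
    (hm : ∀ x ∈ f.ker, (m : ℤ) • toAdd (ab ι x) ∈
      Submodule.span ℤ ((fun r => toAdd (ab ι r)) '' R)) :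
    ∀ x ∈ f.ker.map φ, x ^ m ∈ ⁅f.ker.map φ, (⊤ : Subgroup P)⁆ := by
  classical
  set N : Subgroup P := f.ker.map φ with hN
  have hNn : N.Normal := Subgroup.Normal.map inferInstance φ hφ
  set C : Subgroup P := ⁅N, (⊤ : Subgroup P)⁆ with hC
  have hCn : C.Normal := Subgroup.commutator_normal N ⊤
  -- elements of `N` are central modulo `C`
  have hcen : ∀ a ∈ N, ∀ b : P, (QuotientGroup.mk a : P ⧸ C) * QuotientGroup.mk b =
      QuotientGroup.mk b * QuotientGroup.mk a := by
    intro a ha b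
    have h1 : ⁅a, b⁆ ∈ C := Subgroup.commutator_mem_commutator ha (Subgroup.mem_top b)
    have h2 : (QuotientGroup.mk ⁅a, b⁆ : P ⧸ C) = 1 := (QuotientGroup.eq_one_iff _).2 h1
    rw [commutatorElement_def] at h2
    have h3 : (QuotientGroup.mk a : P ⧸ C) * QuotientGroup.mk b *
        (QuotientGroup.mk a)⁻¹ * (QuotientGroup.mk b)⁻¹ = 1 := h2
    rw [mul_inv_eq_one, mul_inv_eq_iff_eq_mul] at h3
    exact h3
  have hsf : ∀ x, f (x * (s (f.rangeRestrict x))⁻¹) = 1 := by
    intro x
    rw [map_mul, map_inv, hs]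
    simp
  let tau : FreeGroup ι → FreeGroup ι := fun x => x * (s (f.rangeRestrict x))⁻¹
  have htau : ∀ x, φ (tau x) ∈ N := fun x => ⟨tau x, hsf x, rfl⟩
  have hmul : ∀ x y, (QuotientGroup.mk (φ (tau (x * y))) : P ⧸ C) =
      QuotientGroup.mk (φ (tau x)) * QuotientGroup.mk (φ (tau y)) := by
    intro x y
    have h1 : tau (x * y) = x * tau y * (s (f.rangeRestrict x))⁻¹ := by
      simp only [tau, map_mul, mul_inv_rev]
      group
    have h2 : (QuotientGroup.mk (φ (tau (x * y))) : P ⧸ C) =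
        QuotientGroup.mk (φ x) * QuotientGroup.mk (φ (tau y)) *
          QuotientGroup.mk (φ (s (f.rangeRestrict x))⁻¹) := by
      rw [h1, map_mul, map_mul]
      rfl
    have h3 : (QuotientGroup.mk (φ (tau x)) : P ⧸ C) =
        QuotientGroup.mk (φ x) * QuotientGroup.mk (φ (s (f.rangeRestrict x))⁻¹) := by
      simp only [tau]
      rw [map_mul]
      rfl
    rw [h2, h3, mul_assoc, hcen _ (htau y), ← mul_assoc]
  let t : FreeGroup ι →* P ⧸ C := MonoidHom.mk' (fun x => QuotientGroup.mk (φ (tau x))) hmul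
  have htc : ∀ x, t x ∈ Subgroup.center (P ⧸ C) := by
    intro x
    rw [Subgroup.mem_center_iff]
    intro g
    induction g using QuotientGroup.induction_on with
    | H b => exact (hcen _ (htau x) b).symm
  obtain ⟨T, hT⟩ := ab_factor (Z := ↥(Subgroup.center (P ⧸ C))) (t.codRestrict (Subgroup.center (P ⧸ C)) htc)
  have htker : ∀ x ∈ f.ker, t x = QuotientGroup.mk (φ x) := by
    intro x hx
    have h1 : f.rangeRestrict x = 1 := Subtype.ext hx
    change (QuotientGroup.mk (φ (x * (s (f.rangeRestrict x))⁻¹)) : P ⧸ C) = _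
    rw [h1, map_one, inv_one, mul_one]
  have hTR : ∀ v ∈ Submodule.span ℤ ((fun r => toAdd (ab ι r)) '' R), T v = 0 := by
    intro v hv
    induction hv using Submodule.span_induction with
    | mem x hx =>
      obtain ⟨r, hr, rfl⟩ := hx
      rw [← hT r, ofMul_eq_zero]
      apply Subtype.ext
      change t r = 1
      rw [htker r (hfR r hr), hφR r hr]
      rfl
    | zero => exact map_zero T
    | add x y _ _ hx hy => rw [map_add, hx, hy, add_zero]
    | smul a x _ hx => rw [map_zsmul, hx, smul_zero]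
  rintro _ ⟨x, hx, rfl⟩
  have h1 := hTR _ (hm x hx)
  rw [map_zsmul, ← hT x, ← ofMul_zpow, ofMul_eq_zero, zpow_natCast] at h1
  have h2 : (t x) ^ m = 1 := congrArg Subtype.val h1
  rw [htker x hx] at h2
  have h3 : (QuotientGroup.mk ((φ x) ^ m) : P ⧸ C) = 1 := h2
  exact (QuotientGroup.eq_one_iff _).1 h3

end Grp

end Pool.Agent.H.MP_48f3d1_lc
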