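import Pool.Agent.H.MP_48f3d1_lc.Par

/-! Systems of corank at most two. -/

namespace Pool.Agent.H.MP_48f3d1_lc

open Module

/-- commuting words have a common power -/
theorem comm_pow {σ : Type} (u v : FreeMonoid σ) (h : u * v = v * u) :
    u ^ v.length = v ^ u.length := by
  have h1 : Commute u v := h
  have h2 : u ^ v.length * v ^ u.length = v ^ u.length * u ^ v.length := h1.pow_pow _ _
  have h3 : (u ^ v.length).length = (v ^ u.length).length := by
    have h4 : ∀ (w : FreeMonoid σ) (n : ℕ), (w ^ n).length = n * w.length := by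
      intro w n
      induction n with
      | zero => simp
      | succ n ih =>
        rw [pow_succ, FreeMonoid.length_mul, ih]
        ring
    rw [h4, h4, mul_comm]
  have h5 := List.append_inj_left (s₁ := FreeMonoid.toList (u ^ v.length))
    (t₁ := FreeMonoid.toList (v ^ u.length)) (s₂ := FreeMonoid.toList (v ^ u.length))
    (t₂ := FreeMonoid.toList (u ^ v.length)) h2 h3
  exact h5

/-- the length of the value of a word, if the unknown `i` has a value of length `μ i` -/
def len {ι : Type} (μ : ι → ℕ) (w : FreeMonoid ι) : ℕ := ((FreeMonoid.toList w).map μ).sum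

theorem len_one {ι : Type} (μ : ι → ℕ) : len μ 1 = 0 := rfl

theorem len_of_mul {ι : Type} (μ : ι → ℕ) (i : ι) (w : FreeMonoid ι) :
    len μ (FreeMonoid.of i * w) = μ i + len μ w := by
  unfold len
  rw [FreeMonoid.toList_mul, FreeMonoid.toList_of, List.map_append, List.sum_append]
  simp

theorem len_eq {ι : Type} [Fintype ι] (μ : ι → ℕ) (w : FreeMonoid ι) :
    (len μ w : ℚ) = ∑ i, parikh w i * μ i := by
  classical
  induction w using FreeMonoid.recOn with
  | one =>
    rw [len_one]
    simp [parikh]
  | of_mul a w ih =>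
    rw [len_of_mul, Nat.cast_add, ih]
    have h1 : ∀ i, parikh (FreeMonoid.of a * w) i = (if i = a then 1 else 0) + parikh w i := by
      intro i
      unfold parikh
      rw [FreeMonoid.toList_mul, FreeMonoid.toList_of, List.count_append, List.count_singleton]
      by_cases h : i = a
      · subst h
        simp
      · simp [h, Ne.symm h]
    simp only [h1, add_mul, Finset.sum_add_distrib, ite_mul, one_mul, zero_mul]
    simp

theorem len_length {ι σ : Type} (X : ι → FreeMonoid σ) (w : FreeMonoid ι) :
    (FreeMonoid.lift X w).length = len (fun i => (X i).length) w := by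
  induction w using FreeMonoid.recOn with
  | one => rfl
  | of_mul a w ih =>
    rw [len_of_mul, map_mul, FreeMonoid.length_mul, ih, FreeMonoid.lift_eval_of]

theorem one_letter {ι σ : Type} (a : σ) (μ : ι → ℕ) (w : FreeMonoid ι) :
    FreeMonoid.lift (fun i => FreeMonoid.of a ^ μ i) w = FreeMonoid.of a ^ len μ w := by
  induction w using FreeMonoid.recOn with
  | one => rfl
  | of_mul b w ih => rw [len_of_mul, map_mul, ih, FreeMonoid.lift_eval_of, pow_add]

/-- A second vector of lengths, if the corank is at least two. -/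
theorem exists_mu {ι : Type} [Fintype ι] (S : Set (FreeMonoid ι × FreeMonoid ι)) (lam : ι → ℕ)
    (hpos : ∀ i, 0 < lam i) (hS : ∀ e ∈ S, len lam e.1 = len lam e.2) (h2 : 2 ≤ corank S) :
    ∃ μ : ι → ℕ, (∀ e ∈ S, len μ e.1 = len μ e.2) ∧ ∃ i j, μ i * lam j ≠ μ j * lam i := by
  classical
  set W : Subspace ℚ (ι → ℚ) := Submodule.span ℚ (diff '' S) with hW
  have hfr := Subspace.finrank_add_finrank_dualAnnihilator_eq W
  rw [finrank_fintype_fun_eq_card] at hfr
  unfold corank at h2
  rw [← hW] at h2
  have hne : Nonempty ι := by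
    rw [← Fintype.card_pos_iff]
    omega
  have hD : 2 ≤ finrank ℚ W.dualAnnihilator := by omega
  let f0 : Module.Dual ℚ (ι → ℚ) := ∑ i, (lam i : ℚ) • LinearMap.proj i
  have hf0 : ∀ v : ι → ℚ, f0 v = ∑ i, v i * lam i := by
    intro v
    simp only [f0, LinearMap.sum_apply, LinearMap.smul_apply, LinearMap.proj_apply, smul_eq_mul]
    exact Finset.sum_congr rfl fun i _ => mul_comm _ _
  obtain ⟨f, hf, hf'⟩ : ∃ f ∈ W.dualAnnihilator, f ∉ Submodule.span ℚ {f0} := by
    by_contra hcon
    push_neg at hcon
    have h3 := Submodule.finrank_mono (s := W.dualAnnihilator) (t := Submodule.span ℚ {f0}) hcon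
    have h4 := finrank_span_le_card (R := ℚ) ({f0} : Set (Module.Dual ℚ (ι → ℚ)))
    simp at h4
    omega
  let m0 : ι → ℚ := fun i => f (Pi.single i 1)
  have hfm : ∀ v : ι → ℚ, f v = ∑ i, v i * m0 i := by
    intro v
    conv_lhs => rw [← Finset.univ_sum_single v]
    rw [map_sum]
    refine Finset.sum_congr rfl fun i _ => ?_
    have : (Pi.single i (v i) : ι → ℚ) = v i • Pi.single i (1 : ℚ) := by
      ext j
      by_cases h : j = i
      · subst h
        simp
      · simp [h]
    rw [this, map_smul, smul_eq_mul]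
  let N : ℕ := ∏ i, (m0 i).den
  have hN : N ≠ 0 := Finset.prod_ne_zero_iff.2 fun i _ => (m0 i).den_ne_zero
  have hz : ∀ i, ∃ z : ℤ, (z : ℚ) = N * m0 i := by
    intro i
    refine ⟨(∏ j ∈ Finset.univ.erase i, ((m0 j).den : ℤ)) * (m0 i).num, ?_⟩
    have h5 : (N : ℚ) = (∏ j ∈ Finset.univ.erase i, ((m0 j).den : ℚ)) * (m0 i).den := by
      simp only [N]
      rw [Nat.cast_prod, Finset.prod_erase_mul _ _ (Finset.mem_univ i)]
    rw [h5]
    push_cast
    rw [mul_assoc, Rat.den_mul_eq_num]
  choose z hz using hz
  let M : ℕ := ∑ i, (z i).natAbs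
  have hM : ∀ i, 0 ≤ z i + M * lam i := by
    intro i
    have h6 : (z i).natAbs ≤ M := Finset.single_le_sum (f := fun i => (z i).natAbs)
      (fun _ _ => Nat.zero_le _) (Finset.mem_univ i)
    have h7 : (M : ℤ) ≤ M * lam i := by
      have := hpos i
      have h8 : (1 : ℤ) ≤ lam i := by exact_mod_cast this
      nlinarith [Int.natCast_nonneg M]
    omega
  have hmu : ∀ i, ((z i + M * lam i).toNat : ℚ) = N * m0 i + M * lam i := by
    intro i
    have h9 : (((z i + M * lam i).toNat : ℤ) : ℚ) = ((z i + M * lam i : ℤ) : ℚ) := by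
      rw [Int.toNat_of_nonneg (hM i)]
    push_cast at h9
    rw [h9, hz]
  refine ⟨fun i => (z i + M * lam i).toNat, ?_, ?_⟩
  · intro e he
    have h10 : (len (fun i => (z i + M * lam i).toNat) e.1 : ℚ) =
        len (fun i => (z i + M * lam i).toNat) e.2 := by
      rw [len_eq, len_eq, ← sub_eq_zero, ← Finset.sum_sub_distrib]
      have h11 : ∀ i, parikh e.1 i * ((z i + M * lam i).toNat : ℚ) -
          parikh e.2 i * ((z i + M * lam i).toNat : ℚ) =
          N * (diff e i * m0 i) + M * (diff e i * lam i) := by
        intro i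
        rw [hmu]
        unfold diff
        rw [Pi.sub_apply]
        ring
      rw [Finset.sum_congr rfl fun i _ => h11 i, Finset.sum_add_distrib, ← Finset.mul_sum,
        ← Finset.mul_sum, ← hfm, ← hf0]
      have h12 : f (diff e) = 0 :=
        (Submodule.mem_dualAnnihilator f).1 hf _ (Submodule.subset_span ⟨e, he, rfl⟩)
      have h13 : f0 (diff e) = 0 := by
        have h14 := hS e he
        have h15 : (len lam e.1 : ℚ) = len lam e.2 := by rw [h14]
        rw [len_eq, len_eq, ← sub_eq_zero, ← Finset.sum_sub_distrib] at h15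
        rw [hf0, ← h15]
        refine Finset.sum_congr rfl fun i _ => ?_
        unfold diff
        rw [Pi.sub_apply]
        ring
      rw [h12, h13, mul_zero, mul_zero, add_zero]
    exact_mod_cast h10
  · by_contra hcon
    push_neg at hcon
    apply hf'
    obtain ⟨j⟩ := hne
    rw [Submodule.mem_span_singleton]
    have hlj : (lam j : ℚ) ≠ 0 := by
      have := hpos j
      positivity
    have hNq : (N : ℚ) ≠ 0 := by exact_mod_cast hN
    refine ⟨((N * m0 j + M * lam j) / lam j - M) / N, ?_⟩
    apply LinearMap.ext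
    intro v
    rw [LinearMap.smul_apply, hf0, hfm, smul_eq_mul, Finset.mul_sum]
    refine Finset.sum_congr rfl fun i _ => ?_
    have h16 : ((z i + M * lam i).toNat : ℚ) * lam j = ((z j + M * lam j).toNat : ℚ) * lam i := by
      exact_mod_cast hcon i j
    rw [hmu, hmu] at h16
    have h17 : m0 i = (((N * m0 j + M * lam j) / lam j - M) / N) * lam i := by
      field_simp
      linarith
    rw [h17]
    ring

end Pool.Agent.H.MP_48f3d1_lc
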