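import Mathlib

/-! Systems of word equations and F-presentations: definitions. -/

namespace Pool.Agent.H.MP_48f3d1_lc

/-- `h` is a solution of the system `S` (a set of pairs of words over the unknowns `ι`). -/
def IsSol {ι σ : Type} (S : Set (FreeMonoid ι × FreeMonoid ι))
    (h : FreeMonoid ι →* FreeMonoid σ) : Prop :=
  ∀ e ∈ S, h e.1 = h e.2

/-- Two systems have the same solutions in words over the alphabet `σ`. -/
def Equivalent {ι : Type} (σ : Type) (S T : Set (FreeMonoid ι × FreeMonoid ι)) : Prop :=
  ∀ h : FreeMonoid ι →* FreeMonoid σ, IsSol S h ↔ IsSol T h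

/-- The set `R_X` of all equations satisfied by the words `X i`. -/
def rel {ι σ : Type} (X : ι → FreeMonoid σ) : Set (FreeMonoid ι × FreeMonoid ι) :=
  {e | FreeMonoid.lift X e.1 = FreeMonoid.lift X e.2}

/-- `S` F-presents the semigroup generated by the distinct nonempty words `X i`, which are
assigned to the unknowns `i`. -/
def FPresents {ι σ : Type} (S : Set (FreeMonoid ι × FreeMonoid ι)) (X : ι → FreeMonoid σ) :
    Prop :=
  Function.Injective X ∧ (∀ i, X i ≠ 1) ∧ IsSol S (FreeMonoid.lift X) ∧ Equivalent σ S (rel X)

/-- `S` is an F-presentation (over the alphabet `σ`). -/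
def IsFPresentation {ι : Type} (σ : Type) (S : Set (FreeMonoid ι × FreeMonoid ι)) : Prop :=
  ∃ X : ι → FreeMonoid σ, FPresents S X

open Classical in
/-- the numbers of occurrences of the letters in the word `w` -/
noncomputable def parikh {α : Type} (w : FreeMonoid α) : α → ℚ :=
  fun a => ((FreeMonoid.toList w).count a : ℚ)

/-- the difference of the numbers of occurrences of the unknowns in the two sides -/
noncomputable def diff {ι : Type} (e : FreeMonoid ι × FreeMonoid ι) : ι → ℚ :=
  parikh e.1 - parikh e.2

/-- `n` minus the rank of the abelianised system: the dimension of the space of all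
real vectors of lengths which are compatible with the equations -/
noncomputable def corank {ι : Type} [Fintype ι] (S : Set (FreeMonoid ι × FreeMonoid ι)) : ℕ :=
  Fintype.card ι - Module.finrank ℚ (Submodule.span ℚ (diff '' S))

/-- the subgroup of the free group on `σ` generated by the words `X i` -/
def grp {ι σ : Type} (X : ι → FreeMonoid σ) : Subgroup (FreeGroup σ) :=
  Subgroup.closure (Set.range fun i => FreeMonoid.lift FreeGroup.of (X i))

/-- the words `X i` generate a subgroup of rank at least `d`: it is not generated by fewer than
`d` elements -/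
def RankGE {ι σ : Type} (d : ℕ) (X : ι → FreeMonoid σ) : Prop :=
  ∀ T : Finset (FreeGroup σ), Subgroup.closure (T : Set (FreeGroup σ)) = grp X → d ≤ T.card

end Pool.Agent.H.MP_48f3d1_lc
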