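import Pool.Agent.H.MP_48f3d1_lc.Rank

/-! The theorem on systems of word equations. -/

namespace Pool.Agent.H.MP_48f3d1_lc

open Multiplicative Module

variable {ι σ : Type} [Fintype ι]

/-- The kernel of a solution of full rank is contained in the kernel of every solution in a
free group. -/
theorem ker_le (S : Set (FreeMonoid ι × FreeMonoid ι)) (X : ι → FreeMonoid σ)
    (hX : IsSol S (FreeMonoid.lift X)) (hr : RankGE (corank S) X) {τ : Type}
    (φ : FreeGroup ι →* FreeGroup τ) (hφ : ∀ r ∈ rls S, φ r = 1) : (gh X).ker ≤ φ.ker := by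
  classical
  intro x hx
  by_contra hne
  rw [MonoidHom.mem_ker] at hne
  obtain ⟨m, hm0, hm⟩ := clear ((fun r => toAdd (ab ι r)) '' rls S)
  obtain ⟨p, hpm, hp⟩ := Nat.exists_infinite_primes (m + 1)
  have : Fact p.Prime := ⟨hp⟩
  have hcop : Nat.Coprime p m := by
    rw [hp.coprime_iff_not_dvd]
    intro h
    have := Nat.le_of_dvd (Nat.pos_of_ne_zero hm0) h
    omega
  obtain ⟨k, π, hπ⟩ := P14_free p (φ x) hne
  have hT : Finite (P14_T k p) := by
    have h1 : Finite (Matrix (Fin (k + 1)) (Fin (k + 1)) (ZMod p))ˣ := inferInstance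
    exact inferInstance
  set Φ : FreeGroup ι →* P14_T k p := π.comp φ with hΦ
  have hPg : IsPGroup p Φ.range := (P14_pgroup k p).to_subgroup _
  -- the section
  have hsec : ∃ s : (gh X).range →* FreeGroup ι, ∀ y, gh X (s y) = y := by
    have h1 : ∀ b : IsFreeGroup.Generators (gh X).range,
        ∃ w, gh X w = (IsFreeGroup.of b : (gh X).range) := fun b => (IsFreeGroup.of b).2
    choose w hw using h1
    refine ⟨IsFreeGroup.lift w, fun y => ?_⟩
    have h2 : (gh X).comp (IsFreeGroup.lift w) = (gh X).range.subtype := by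
      apply IsFreeGroup.ext_hom
      intro b
      rw [MonoidHom.comp_apply, IsFreeGroup.lift_of, hw]
      rfl
    exact DFunLike.congr_fun h2 y
  obtain ⟨s, hs⟩ := hsec
  have hker := ker_span S X hX hr
  rw [← image_cst] at hker
  have h1 := pow_mem (gh X) s hs Φ.rangeRestrict Φ.rangeRestrict_surjective (rls S)
    (gh_rls hX) (fun r hr' => Subtype.ext (by
      change π (φ r) = 1
      rw [hφ r hr', map_one])) m (fun y hy => hm _ (hker y hy))
  have hN : ((gh X).ker.map Φ.rangeRestrict).Normal :=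
    Subgroup.Normal.map inferInstance _ Φ.rangeRestrict_surjective
  have h2 := nil hPg _ m hcop h1
  have h3 : Φ.rangeRestrict x ∈ (gh X).ker.map Φ.rangeRestrict := ⟨x, hx, rfl⟩
  rw [h2, Subgroup.mem_bot] at h3
  exact hπ (congrArg Subtype.val h3)

/-- The full rank criterion. -/
theorem full (S : Set (FreeMonoid ι × FreeMonoid ι)) (X : ι → FreeMonoid σ)
    (hX : IsSol S (FreeMonoid.lift X)) (hr : RankGE (corank S) X) {τ : Type}
    (h : FreeMonoid ι →* FreeMonoid τ) (hh : IsSol S h) (u v : FreeMonoid ι)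
    (huv : FreeMonoid.lift X u = FreeMonoid.lift X v) : h u = h v := by
  have h0 : FreeMonoid.lift (fun i => h (FreeMonoid.of i)) = h := by
    apply FreeMonoid.hom_eq
    intro i
    simp
  rw [← h0] at hh
  have h1 := ker_le S X hX hr (gh fun i => h (FreeMonoid.of i)) (gh_rls hh)
  have h2 : emb ι u * (emb ι v)⁻¹ ∈ (gh X).ker := by
    rw [MonoidHom.mem_ker, map_mul, map_inv, gh_emb, gh_emb, huv, mul_inv_cancel]
  have h3 := h1 h2
  rw [MonoidHom.mem_ker, map_mul, map_inv, gh_emb, gh_emb, mul_inv_eq_one, h0] at h3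
  exact emb_injective τ h3

end Pool.Agent.H.MP_48f3d1_lc
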