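import Pool.Agent.H.MP_48f3d1_lc.Alg

/-! The rank argument and the theorem on systems of word equations. -/

namespace Pool.Agent.H.MP_48f3d1_lc

open Multiplicative

/-- words as elements of the free group -/
def emb (σ : Type) : FreeMonoid σ →* FreeGroup σ := FreeMonoid.lift FreeGroup.of

theorem emb_eq_mk {σ : Type} (w : FreeMonoid σ) :
    emb σ w = FreeGroup.mk ((FreeMonoid.toList w).map fun a => (a, true)) := by
  induction w using FreeMonoid.recOn with
  | one => rfl
  | of_mul a w ih =>
    rw [map_mul, ih]
    rfl

theorem emb_injective (σ : Type) : Function.Injective (emb σ) := by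
  classical
  intro u v h
  rw [emb_eq_mk, emb_eq_mk] at h
  have hr : ∀ w : FreeMonoid σ,
      FreeGroup.reduce ((FreeMonoid.toList w).map fun a => (a, true)) =
        (FreeMonoid.toList w).map fun a => (a, true) := by
    intro w
    apply FreeGroup.IsReduced.reduce_eq
    unfold FreeGroup.IsReduced
    apply List.Pairwise.isChain
    rw [List.pairwise_map]
    exact List.pairwise_of_forall fun _ _ _ => rfl
  have h2 : (FreeMonoid.toList u).map (fun a => (a, true)) =
      (FreeMonoid.toList v).map fun a => (a, true) := by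
    rw [← hr u, ← hr v]
    exact FreeGroup.reduce.sound h
  have h3 : Function.Injective fun a : σ => (a, true) := fun a b hab => (Prod.ext_iff.1 hab).1
  exact FreeMonoid.toList.injective (List.map_injective_iff.2 h3 h2)

section

variable {ι σ : Type}

/-- the homomorphism of free groups given by the words `X i` -/
def gh (X : ι → FreeMonoid σ) : FreeGroup ι →* FreeGroup σ := FreeGroup.lift fun i => emb σ (X i)

theorem gh_emb (X : ι → FreeMonoid σ) (w : FreeMonoid ι) :
    gh X (emb ι w) = emb σ (FreeMonoid.lift X w) := by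
  have : (gh X).comp (emb ι) = (emb σ).comp (FreeMonoid.lift X) := by
    apply FreeMonoid.hom_eq
    intro i
    simp [gh, emb]
  exact DFunLike.congr_fun this w

theorem gh_range (X : ι → FreeMonoid σ) : (gh X).range = grp X := by
  unfold gh grp
  rw [FreeGroup.range_lift_eq_closure]
  rfl

/-- the relators of a system -/
def rls (S : Set (FreeMonoid ι × FreeMonoid ι)) : Set (FreeGroup ι) :=
  (fun e => emb ι e.1 * (emb ι e.2)⁻¹) '' S

theorem gh_rls {S : Set (FreeMonoid ι × FreeMonoid ι)} {X : ι → FreeMonoid σ}
    (hX : IsSol S (FreeMonoid.lift X)) : ∀ r ∈ rls S, gh X r = 1 := by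
  rintro _ ⟨e, he, rfl⟩
  rw [map_mul, map_inv, gh_emb, gh_emb, hX e he, mul_inv_cancel]

variable [Fintype ι]

omit [Fintype ι] in
theorem cst_ab_emb (w : FreeMonoid ι) (i : ι) :
    cst ι (toAdd (ab ι (emb ι w))) i = parikh w i := by
  classical
  unfold parikh
  induction w using FreeMonoid.recOn with
  | one => simp
  | of_mul a w ih =>
    rw [map_mul, map_mul, toAdd_mul, map_add, Pi.add_apply, ih]
    have h1 : cst ι (toAdd (ab ι (emb ι (FreeMonoid.of a)))) i = if a = i then 1 else 0 := by
      simp only [emb, ab, FreeMonoid.lift_eval_of, FreeGroup.lift_apply_of, toAdd_ofAdd, cst,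
        LinearMap.coe_mk, AddHom.coe_mk]
      by_cases h : a = i
      · subst h
        simp
      · rw [if_neg h, Pi.single_eq_of_ne (Ne.symm h)]
        simp
    rw [h1, FreeMonoid.toList_mul, FreeMonoid.toList_of, List.count_append]
    push_cast
    congr 1
    by_cases h : a = i
    · subst h
      simp
    · rw [if_neg h, List.count_singleton]
      simp [h]

omit [Fintype ι] in
theorem cst_ab_rls (e : FreeMonoid ι × FreeMonoid ι) :
    cst ι (toAdd (ab ι (emb ι e.1 * (emb ι e.2)⁻¹))) = diff e := by
  ext i
  rw [map_mul, map_inv, toAdd_mul, toAdd_inv, map_add, map_neg, Pi.add_apply, Pi.neg_apply,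
    cst_ab_emb, cst_ab_emb]
  unfold diff
  rw [Pi.sub_apply]
  ring

omit [Fintype ι] in
theorem image_cst (S : Set (FreeMonoid ι × FreeMonoid ι)) :
    cst ι '' ((fun r => toAdd (ab ι r)) '' rls S) = diff '' S := by
  unfold rls
  rw [Set.image_image, Set.image_image]
  apply Set.image_congr
  intro e _
  exact cst_ab_rls e

end

end Pool.Agent.H.MP_48f3d1_lc
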