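import Pool.Agent.H.MP_48f3d1_lc.Fin

/-! The rank of the Parikh matrix. -/

namespace Pool.Agent.H.MP_48f3d1_lc

open Multiplicative Module

open Classical in
/-- exponent sums, rational version, any alphabet -/
noncomputable def abq (σ : Type) : FreeGroup σ →* Multiplicative (σ → ℚ) :=
  FreeGroup.lift fun a => ofAdd (Pi.single a 1)

theorem abq_emb {σ : Type} (w : FreeMonoid σ) : toAdd (abq σ (emb σ w)) = parikh w := by
  classical
  unfold parikh
  induction w using FreeMonoid.recOn with
  | one => ext i; simp
  | of_mul a w ih =>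
    rw [map_mul, map_mul, toAdd_mul, ih]
    ext i
    have h1 : toAdd (abq σ (emb σ (FreeMonoid.of a))) i = if a = i then 1 else 0 := by
      simp only [emb, abq, FreeMonoid.lift_eval_of, FreeGroup.lift_apply_of, toAdd_ofAdd]
      by_cases h : a = i
      · subst h
        simp
      · rw [if_neg h, Pi.single_eq_of_ne (Ne.symm h)]
    rw [Pi.add_apply, h1, FreeMonoid.toList_mul, FreeMonoid.toList_of, List.count_append]
    push_cast
    congr 1
    by_cases h : a = i
    · subst h
      simp
    · rw [if_neg h, List.count_singleton]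
      simp [h]

/-- The rank of the Parikh matrix is a lower bound for the rank of the subgroup. -/
theorem rank_of_parikh {ι σ : Type} (d : ℕ) (X : ι → FreeMonoid σ)
    (h : d ≤ finrank ℚ (Submodule.span ℚ (Set.range fun i => parikh (X i)))) : RankGE d X := by
  classical
  intro T hT
  have h1 : ∀ g ∈ Subgroup.closure (T : Set (FreeGroup σ)), toAdd (abq σ g) ∈
      Submodule.span ℚ ((T.image fun g => toAdd (abq σ g) : Finset (σ → ℚ)) : Set (σ → ℚ)) := by
    intro g hg
    induction hg using Subgroup.closure_induction with
    | mem x hx =>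
      apply Submodule.subset_span
      rw [Finset.coe_image]
      exact ⟨x, hx, rfl⟩
    | one => rw [map_one, toAdd_one]; exact Submodule.zero_mem _
    | mul x y _ _ hx hy => rw [map_mul, toAdd_mul]; exact Submodule.add_mem _ hx hy
    | inv x _ hx => rw [map_inv, toAdd_inv]; exact Submodule.neg_mem _ hx
  have h2 : Submodule.span ℚ (Set.range fun i => parikh (X i)) ≤
      Submodule.span ℚ ((T.image fun g => toAdd (abq σ g) : Finset (σ → ℚ)) : Set (σ → ℚ)) := by
    rw [Submodule.span_le]
    rintro _ ⟨i, rfl⟩
    have h3 : emb σ (X i) ∈ Subgroup.closure (T : Set (FreeGroup σ)) := by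
      rw [hT]
      exact Subgroup.subset_closure ⟨i, rfl⟩
    have h4 := h1 _ h3
    rw [abq_emb] at h4
    exact h4
  calc d ≤ _ := h
    _ ≤ _ := Submodule.finrank_mono h2
    _ ≤ (T.image fun g => toAdd (abq σ g)).card := finrank_span_finset_le_card _
    _ ≤ T.card := Finset.card_image_le

end Pool.Agent.H.MP_48f3d1_lc
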