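import Pool.Agent.H.MP_48f3d1_lc.Main

/-! The rank argument. -/

namespace Pool.Agent.H.MP_48f3d1_lc

open Multiplicative Module

/-- the basis elements generate -/
theorem closure_of (H : Type*) [Group H] [IsFreeGroup H] :
    Subgroup.closure (Set.range (IsFreeGroup.of : IsFreeGroup.Generators H → H)) = ⊤ := by
  have h1 : (IsFreeGroup.of : IsFreeGroup.Generators H → H) =
      (IsFreeGroup.mulEquiv H) ∘ FreeGroup.of := rfl
  rw [h1, Set.range_comp]
  have h2 := MonoidHom.map_closure (IsFreeGroup.mulEquiv H).toMonoidHom
    (Set.range (FreeGroup.of : IsFreeGroup.Generators H → _))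
  rw [FreeGroup.closure_range_of] at h2
  have h3 : ((IsFreeGroup.mulEquiv H).toMonoidHom : FreeGroup _ → H) =
      (IsFreeGroup.mulEquiv H) := rfl
  rw [h3] at h2
  rw [← h2, ← MonoidHom.range_eq_map, MonoidHom.range_eq_top]
  exact (IsFreeGroup.mulEquiv H).surjective

variable {ι σ : Type} [Fintype ι]

/-- If the words of a solution generate a subgroup of rank at least the corank of the system,
then the exponent vectors of the kernel are in the rational span of the abelianised system. -/
theorem ker_span (S : Set (FreeMonoid ι × FreeMonoid ι)) (X : ι → FreeMonoid σ)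
    (hX : IsSol S (FreeMonoid.lift X)) (hr : RankGE (corank S) X) :
    ∀ x ∈ (gh X).ker, cst ι (toAdd (ab ι x)) ∈ Submodule.span ℚ (diff '' S) := by
  classical
  set H := (gh X).range with hH
  let B := IsFreeGroup.Generators H
  let th0 : FreeGroup B →* Multiplicative (B →₀ ℚ) :=
    FreeGroup.lift fun b => ofAdd (Finsupp.single b 1)
  let th : FreeGroup ι →* Multiplicative (B →₀ ℚ) :=
    (th0.comp (IsFreeGroup.toFreeGroup H).toMonoidHom).comp (gh X).rangeRestrict
  let L : (ι → ℚ) →ₗ[ℚ] (B →₀ ℚ) :=
    Fintype.linearCombination ℚ fun i => toAdd (th (FreeGroup.of i))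
  have hL : ∀ w, toAdd (th w) = L (cst ι (toAdd (ab ι w))) := by
    intro w
    induction w using FreeGroup.induction_on with
    | C1 => simp
    | of i =>
      have h1 : cst ι (toAdd (ab ι (FreeGroup.of i))) = Pi.single i 1 := by
        ext j
        simp only [ab, FreeGroup.lift_apply_of, toAdd_ofAdd, cst, LinearMap.coe_mk,
          AddHom.coe_mk]
        by_cases h : j = i
        · subst h
          simp
        · rw [Pi.single_eq_of_ne h, Pi.single_eq_of_ne h]
          simp
      rw [h1]
      simp only [L]
      rw [Fintype.linearCombination_apply_single, one_smul]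
    | inv_of i h => rw [map_inv, toAdd_inv, h, map_inv, toAdd_inv, map_neg, map_neg]
    | mul x y hx hy => rw [map_mul, toAdd_mul, hx, hy, map_mul, toAdd_mul, map_add, map_add]
  have hsurj : Function.Surjective L := by
    intro y
    induction y using Finsupp.induction_linear with
    | zero => exact ⟨0, map_zero L⟩
    | add f g hf hg =>
      obtain ⟨a, ha⟩ := hf
      obtain ⟨b, hb⟩ := hg
      exact ⟨a + b, by rw [map_add, ha, hb]⟩
    | single b q =>
      obtain ⟨w, hw⟩ := (gh X).rangeRestrict_surjective ((IsFreeGroup.toFreeGroup H).symm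
        (FreeGroup.of b))
      refine ⟨q • cst ι (toAdd (ab ι w)), ?_⟩
      rw [map_smul, ← hL]
      change q • toAdd (th0 (IsFreeGroup.toFreeGroup H ((gh X).rangeRestrict w))) = _
      rw [hw, MulEquiv.apply_symm_apply, FreeGroup.lift_apply_of, toAdd_ofAdd,
        Finsupp.smul_single, smul_eq_mul, mul_one]
  have hfin : Module.Finite ℚ (B →₀ ℚ) := Module.Finite.of_surjective L hsurj
  have hBfin : Finite B := Module.Finite.finite_basis (Finsupp.basisSingleOne (R := ℚ) (ι := B))
  have : Fintype B := Fintype.ofFinite B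
  have hcard : corank S ≤ Fintype.card B := by
    have h1 := hr (Finset.univ.image fun b : B => ((IsFreeGroup.of b : H) : FreeGroup σ)) ?_
    · exact h1.trans Finset.card_image_le
    · rw [Finset.coe_image, Finset.coe_univ, Set.image_univ, ← gh_range]
      have h2 : (Set.range fun b : B => ((IsFreeGroup.of b : H) : FreeGroup σ)) =
          H.subtype '' Set.range (IsFreeGroup.of : B → H) := by
        rw [← Set.range_comp]
        rfl
      rw [h2, ← MonoidHom.map_closure, closure_of, ← MonoidHom.range_eq_map,
        Subgroup.range_subtype]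
  have hker : Submodule.span ℚ (diff '' S) ≤ LinearMap.ker L := by
    rw [Submodule.span_le]
    rintro _ ⟨e, he, rfl⟩
    rw [SetLike.mem_coe, LinearMap.mem_ker, ← cst_ab_rls e, ← hL]
    have h1 : gh X (emb ι e.1 * (emb ι e.2)⁻¹) = 1 := gh_rls hX _ ⟨e, he, rfl⟩
    have h2 : (gh X).rangeRestrict (emb ι e.1 * (emb ι e.2)⁻¹) = 1 := Subtype.ext h1
    change toAdd (th0 (IsFreeGroup.toFreeGroup H ((gh X).rangeRestrict _))) = 0
    rw [h2, map_one, map_one, toAdd_one]
  have hdim : finrank ℚ (LinearMap.ker L) ≤ finrank ℚ (Submodule.span ℚ (diff '' S)) := by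
    have h1 := L.finrank_range_add_finrank_ker
    rw [LinearMap.range_eq_top.2 hsurj, finrank_top, finrank_finsupp_self,
      finrank_fintype_fun_eq_card] at h1
    have h2 : finrank ℚ (Submodule.span ℚ (diff '' S)) ≤ Fintype.card ι := by
      have := Submodule.finrank_le (Submodule.span ℚ (diff '' S))
      rwa [finrank_fintype_fun_eq_card] at this
    unfold corank at hcard
    omega
  have heq := Submodule.eq_of_le_of_finrank_le hker hdim
  intro x hx
  rw [heq, LinearMap.mem_ker, ← hL]
  have h2 : (gh X).rangeRestrict x = 1 := Subtype.ext hx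
  change toAdd (th0 (IsFreeGroup.toFreeGroup H ((gh X).rangeRestrict _))) = 0
  rw [h2, map_one, map_one, toAdd_one]

end Pool.Agent.H.MP_48f3d1_lc
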